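import Pool.Agent.E8helper23.SG.Stm
import Pool.Agent.E8helper63.SZ.Pos

/-!
# The Selberg sum is at least `T R` (project SG, part HSUM)
-/

set_option autoImplicit false

namespace Pool.Agent.E8helper42.SG

open Finset
open Pool.Agent.E8helper22.SZ (RealPrim cv tau)

lemma cv_pow {q : ℕ} {χ : DirichletCharacter ℂ q} (h : RealPrim q χ) (p v : ℕ) :
    cv χ (p ^ v) = cv χ p ^ v := by
  unfold cv
  push_cast
  rw [map_pow]
  rcases h.quad (p : ZMod q) with h1 | h1 | h1
  · rw [h1]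
    rcases Nat.eq_zero_or_pos v with h2 | h2
    · subst h2; simp
    · rw [zero_pow h2.ne']; simp [h2.ne']
  · rw [h1]; simp
  · rw [h1]
    rcases neg_one_pow_eq_or ℂ v with h2 | h2
    · rw [h2]
      have h3 : (-1 : ℝ) ^ v = 1 := by
        have : (((-1 : ℝ) ^ v : ℝ) : ℂ) = ((1 : ℝ) : ℂ) := by push_cast; exact h2
        exact Complex.ofReal_injective this
      simp [h3]
    · rw [h2]
      have h3 : (-1 : ℝ) ^ v = -1 := by
        have : (((-1 : ℝ) ^ v : ℝ) : ℂ) = ((-1 : ℝ) : ℂ) := by push_cast; exact h2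
        exact Complex.ofReal_injective this
      simp [h3]

lemma tau_nonneg {q : ℕ} {χ : DirichletCharacter ℂ q} (hq : 0 < q) (h : RealPrim q χ) (m : ℕ) :
    0 ≤ tau χ m := by
  rcases Nat.eq_zero_or_pos m with h0 | h0
  · subst h0; simp [tau]
  · exact (Pool.Agent.E8helper63.SZ.t_POS q χ hq h m h0).1

lemma tau_mul {q : ℕ} {χ : DirichletCharacter ℂ q} (h : RealPrim q χ) {a b : ℕ}
    (hab : Nat.Coprime a b) : tau χ (a * b) = tau χ a * tau χ b := by
  rw [Pool.Agent.E8helper63.SZ.tau_eq, Pool.Agent.E8helper63.SZ.tau_eq,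
    Pool.Agent.E8helper63.SZ.tau_eq,
    (DirichletCharacter.isMultiplicative_zetaMul χ).map_mul_of_coprime hab, Complex.mul_re]
  have h1 := DirichletCharacter.zetaMul_nonneg (Pool.Agent.E8helper63.SZ.sq_one h) a
  have h2 := (Complex.le_def.mp h1).2
  simp only [Complex.zero_im] at h2
  rw [← h2]
  ring

lemma tau_pow {q : ℕ} {χ : DirichletCharacter ℂ q} (h : RealPrim q χ) {p : ℕ} (hp : p.Prime)
    (v : ℕ) : tau χ (p ^ v) = ∑ i ∈ range (v + 1), cv χ p ^ i := by
  unfold tau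
  rw [Nat.sum_divisors_prime_pow hp]
  exact sum_congr rfl fun i _ => cv_pow h p i

lemma tau_pow_succ {q : ℕ} {χ : DirichletCharacter ℂ q} (h : RealPrim q χ) {p : ℕ} (hp : p.Prime)
    (v : ℕ) : tau χ (p ^ (v + 1)) = 1 + cv χ p * tau χ (p ^ v) := by
  rw [tau_pow h hp, tau_pow h hp, geom_sum_succ]
  ring

/-- the density function -/
noncomputable def hh {q : ℕ} (χ : DirichletCharacter ℂ q) (p : ℕ) : ℝ :=
  1 / ((1 - 1 / (p : ℝ)) * (1 - cv χ p / p)) - 1

lemma geo {q : ℕ} {χ : DirichletCharacter ℂ q} (h : RealPrim q χ) {p : ℕ} (hp : p.Prime)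
    (V : ℕ) :
    (1 - 1 / (p : ℝ)) * (1 - cv χ p / p) * ∑ v ∈ range (V + 1), tau χ (p ^ v) / (p : ℝ) ^ v =
      1 - (1 / (p : ℝ)) ^ (V + 1) * (1 / (p : ℝ) + (1 - 1 / (p : ℝ)) * tau χ (p ^ (V + 1))) := by
  have hp0 : (p : ℝ) ≠ 0 := by exact_mod_cast hp.ne_zero
  induction V with
  | zero =>
    rw [tau_pow_succ h hp]
    have h1 : tau χ (p ^ 0) = 1 := by simp [tau, cv]
    simp only [zero_add, sum_range_one, pow_zero, div_one, pow_one] at h1 ⊢
    rw [h1]
    field_simp
    ring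
  | succ V ih =>
    rw [sum_range_succ, mul_add, ih, tau_pow_succ h hp (V + 1)]
    have h1 : tau χ (p ^ (V + 1)) / (p : ℝ) ^ (V + 1) =
        tau χ (p ^ (V + 1)) * (1 / (p : ℝ)) ^ (V + 1) := by
      rw [one_div, inv_pow]; rfl
    rw [h1, pow_succ (1 / (p : ℝ)) (V + 1)]
    generalize (1 / (p : ℝ)) ^ (V + 1) = t
    generalize tau χ (p ^ (V + 1)) = g
    have h2 : cv χ p / p = cv χ p * (1 / (p : ℝ)) := by ring
    rw [h2]
    ring

lemma cv_le {q : ℕ} {χ : DirichletCharacter ℂ q} (h : RealPrim q χ) (p : ℕ) :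
    -1 ≤ cv χ p ∧ cv χ p ≤ 1 := by
  unfold cv
  rcases h.quad (p : ZMod q) with h1 | h1 | h1 <;> rw [h1] <;> simp

lemma den_pos {q : ℕ} {χ : DirichletCharacter ℂ q} (h : RealPrim q χ) {p : ℕ} (hp : p.Prime) :
    0 < (1 - 1 / (p : ℝ)) * (1 - cv χ p / p) := by
  have hp1 : (1 : ℝ) < p := by exact_mod_cast hp.one_lt
  have h1 : 0 < 1 - 1 / (p : ℝ) := by
    rw [sub_pos, div_lt_one (by linarith)]; exact hp1
  have h2 : 0 < 1 - cv χ p / p := by
    rw [sub_pos, div_lt_one (by linarith)]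
    linarith [(cv_le h p).2]
  positivity

lemma sum_le {q : ℕ} {χ : DirichletCharacter ℂ q} (hq : 0 < q) (h : RealPrim q χ) {p : ℕ}
    (hp : p.Prime) (V : ℕ) :
    ∑ v ∈ range V, tau χ (p ^ (v + 1)) / (p : ℝ) ^ (v + 1) ≤ hh χ p := by
  have hp1 : (1 : ℝ) < p := by exact_mod_cast hp.one_lt
  have h1 := geo h hp V
  have h2 := den_pos h hp
  have h3 : 0 ≤ (1 / (p : ℝ)) ^ (V + 1) *
      (1 / (p : ℝ) + (1 - 1 / (p : ℝ)) * tau χ (p ^ (V + 1))) := by
    have h4 : 0 ≤ 1 - 1 / (p : ℝ) := by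
      rw [sub_nonneg, div_le_one (by linarith)]; exact hp1.le
    have h5 := tau_nonneg hq h (p ^ (V + 1))
    positivity
  rw [sum_range_succ'] at h1
  have h6 : tau χ (p ^ 0) / (p : ℝ) ^ 0 = 1 := by simp [tau, cv]
  rw [h6] at h1
  unfold hh
  rw [le_sub_iff_add_le, le_div_iff₀ h2]
  linarith

lemma hh_nonneg {q : ℕ} {χ : DirichletCharacter ℂ q} (hq : 0 < q) (h : RealPrim q χ) {p : ℕ}
    (hp : p.Prime) : 0 ≤ hh χ p := by
  simpa using sum_le hq h hp 0

/-- the sum over the numbers up to `x` with all prime factors in `P` -/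
noncomputable def SS {q : ℕ} (χ : DirichletCharacter ℂ q) (P : Finset ℕ) (x : ℕ) : ℝ :=
  ∑ n ∈ (Icc 1 x).filter (fun n => n.primeFactors ⊆ P), tau χ n / n

/-- the sum over the squarefree numbers up to `x` with all prime factors in `P` -/
noncomputable def GG {q : ℕ} (χ : DirichletCharacter ℂ q) (P : Finset ℕ) (x : ℕ) : ℝ :=
  ∑ l ∈ (Icc 1 x).filter (fun l => Squarefree l ∧ l.primeFactors ⊆ P),
    ∏ p ∈ l.primeFactors, hh χ p

lemma SS_mono {q : ℕ} {χ : DirichletCharacter ℂ q} (hq : 0 < q) (h : RealPrim q χ)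
    (P : Finset ℕ) {x y : ℕ} (hxy : x ≤ y) : SS χ P x ≤ SS χ P y := by
  unfold SS
  refine sum_le_sum_of_subset_of_nonneg ?_ fun i _ _ =>
    div_nonneg (tau_nonneg hq h i) (Nat.cast_nonneg i)
  intro l hl
  simp only [mem_filter, mem_Icc] at hl ⊢
  exact ⟨⟨hl.1.1, hl.1.2.trans hxy⟩, hl.2⟩

lemma SS_nonneg {q : ℕ} {χ : DirichletCharacter ℂ q} (hq : 0 < q) (h : RealPrim q χ)
    (P : Finset ℕ) (x : ℕ) : 0 ≤ SS χ P x :=
  sum_nonneg fun i _ => div_nonneg (tau_nonneg hq h i) (Nat.cast_nonneg i)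

theorem SS_insert {q : ℕ} {χ : DirichletCharacter ℂ q} (hq : 0 < q) (h : RealPrim q χ)
    {P : Finset ℕ} {p : ℕ} (hp : p.Prime) (hpP : p ∉ P) (x : ℕ) :
    SS χ (insert p P) x ≤ SS χ P x + hh χ p * SS χ P (x / p) := by
  classical
  have hp0 : (p : ℝ) ≠ 0 := by exact_mod_cast hp.ne_zero
  set B : Finset (Σ _ : ℕ, ℕ) := (range (x + 1)).sigma
    (fun v => (Icc 1 (x / p ^ v)).filter (fun n => n.primeFactors ⊆ P)) with hB
  have h1 : SS χ (insert p P) x ≤ ∑ b ∈ B, tau χ (p ^ b.1 * b.2) / ((p ^ b.1 * b.2 : ℕ) : ℝ) := by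
    unfold SS
    have hsub : (Icc 1 x).filter (fun n => n.primeFactors ⊆ insert p P) ⊆
        B.image (fun b => p ^ b.1 * b.2) := by
      intro n hn
      rw [mem_filter, mem_Icc] at hn
      obtain ⟨⟨hn1, hn2⟩, hn3⟩ := hn
      obtain ⟨v, m, hm, hnm⟩ := Nat.exists_eq_pow_mul_and_not_dvd (n := n) (by omega) p
        hp.ne_one
      have hm0 : 0 < m := by
        rcases Nat.eq_zero_or_pos m with h0 | h0
        · subst h0; simp at hm
        · exact h0
      rw [mem_image]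
      refine ⟨⟨v, m⟩, ?_, hnm.symm⟩
      rw [hB, mem_sigma, mem_range, mem_filter, mem_Icc]
      have hpv : 0 < p ^ v := pow_pos hp.pos v
      have hv : v < p ^ v := Nat.lt_pow_self hp.one_lt
      have hle : p ^ v ≤ n := by
        rw [hnm]; exact Nat.le_mul_of_pos_right _ hm0
      have hvx : v < x + 1 := by omega
      refine ⟨hvx, ⟨hm0, ?_⟩, ?_⟩
      · rw [Nat.le_div_iff_mul_le hpv, mul_comm, ← hnm]
        exact hn2
      · intro r hr
        have hr1 := Nat.mem_primeFactors.1 hr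
        have hr2 : r ∈ n.primeFactors := Nat.mem_primeFactors.2
          ⟨hr1.1, hr1.2.1.trans (by rw [hnm]; exact dvd_mul_left _ _), by omega⟩
        rcases mem_insert.1 (hn3 hr2) with h4 | h4
        · subst h4; exact absurd hr1.2.1 hm
        · exact h4
    have hnn : ∀ n : ℕ, 0 ≤ tau χ n / (n : ℝ) := fun n =>
      div_nonneg (tau_nonneg hq h n) (Nat.cast_nonneg n)
    refine (sum_le_sum_of_subset_of_nonneg hsub fun i _ _ => hnn i).trans ?_
    refine (sum_image_le_of_nonneg (s := B) (g := fun b : (Σ _ : ℕ, ℕ) => p ^ b.1 * b.2)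
      (f := fun n : ℕ => tau χ n / (n : ℝ)) fun b _ => hnn _).trans (le_of_eq rfl)
  have h2 : ∑ b ∈ B, tau χ (p ^ b.1 * b.2) / ((p ^ b.1 * b.2 : ℕ) : ℝ) =
      ∑ v ∈ range (x + 1), tau χ (p ^ v) / (p : ℝ) ^ v * SS χ P (x / p ^ v) := by
    rw [hB, sum_sigma]
    apply sum_congr rfl
    intro v _
    unfold SS
    rw [mul_sum]
    apply sum_congr rfl
    intro m hm
    rw [mem_filter, mem_Icc] at hm
    have hpm : ¬ p ∣ m := fun hd => hpP (hm.2 (Nat.mem_primeFactors.2 ⟨hp, hd, by omega⟩))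
    have hcop : Nat.Coprime (p ^ v) m := Nat.Coprime.pow_left v ((hp.coprime_iff_not_dvd).2 hpm)
    change tau χ (p ^ v * m) / ((p ^ v * m : ℕ) : ℝ) = _
    rw [tau_mul h hcop]
    push_cast
    rw [div_mul_div_comm]
  rw [h2, sum_range_succ'] at h1
  refine h1.trans ?_
  have h3 : tau χ (p ^ 0) / (p : ℝ) ^ 0 * SS χ P (x / p ^ 0) = SS χ P x := by
    simp [tau, cv]
  rw [h3, add_comm]
  refine add_le_add_right ?_ _
  calc ∑ v ∈ range x, tau χ (p ^ (v + 1)) / (p : ℝ) ^ (v + 1) * SS χ P (x / p ^ (v + 1))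
      ≤ ∑ v ∈ range x, tau χ (p ^ (v + 1)) / (p : ℝ) ^ (v + 1) * SS χ P (x / p) := by
        apply sum_le_sum
        intro v _
        refine mul_le_mul_of_nonneg_left (SS_mono hq h P ?_)
          (div_nonneg (tau_nonneg hq h _) (by positivity))
        refine Nat.div_le_div_left ?_ hp.pos
        exact Nat.le_self_pow (by omega) p
    _ = (∑ v ∈ range x, tau χ (p ^ (v + 1)) / (p : ℝ) ^ (v + 1)) * SS χ P (x / p) := by
        rw [sum_mul]
    _ ≤ hh χ p * SS χ P (x / p) :=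
        mul_le_mul_of_nonneg_right (sum_le hq h hp x) (SS_nonneg hq h P _)

theorem GG_insert {q : ℕ} (χ : DirichletCharacter ℂ q) {P : Finset ℕ} {p : ℕ} (hp : p.Prime)
    (hpP : p ∉ P) (x : ℕ) :
    GG χ (insert p P) x = GG χ P x + hh χ p * GG χ P (x / p) := by
  classical
  unfold GG
  rw [← Finset.sum_filter_add_sum_filter_not
    ((Finset.Icc 1 x).filter (fun l => Squarefree l ∧ l.primeFactors ⊆ insert p P))
    (fun n => ¬ p ∣ n)]
  congr 1
  · apply Finset.sum_congr _ fun _ _ => rfl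
    ext n
    simp only [Finset.mem_filter, Finset.mem_Icc]
    constructor
    · rintro ⟨⟨h1, h0, h2⟩, h3⟩
      refine ⟨h1, h0, fun r hr => ?_⟩
      rcases Finset.mem_insert.1 (h2 hr) with h | h
      · subst h
        exact absurd (Nat.dvd_of_mem_primeFactors hr) h3
      · exact h
    · rintro ⟨h1, h0, h2⟩
      refine ⟨⟨h1, h0, h2.trans (Finset.subset_insert _ _)⟩, fun h => hpP (h2 ?_)⟩
      exact Nat.mem_primeFactors.2 ⟨hp, h, by omega⟩
  · rw [Finset.mul_sum]
    have h3 : ((Finset.Icc 1 x).filter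
        (fun l => Squarefree l ∧ l.primeFactors ⊆ insert p P)).filter (fun n => ¬ ¬ p ∣ n) =
        ((Finset.Icc 1 (x / p)).filter (fun l => Squarefree l ∧ l.primeFactors ⊆ P)).image
          (fun m => p * m) := by
      ext n
      simp only [Finset.mem_filter, Finset.mem_Icc, Finset.mem_image, not_not]
      constructor
      · rintro ⟨⟨⟨h1, h2⟩, h5, h4⟩, m, rfl⟩
        have hm : 0 < m := by
          rcases Nat.eq_zero_or_pos m with h | h
          · subst h; simp at h1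
          · exact h
        have hcop : Nat.Coprime p m := Nat.coprime_of_squarefree_mul h5
        refine ⟨m, ⟨⟨hm, ?_⟩, h5.of_mul_right, ?_⟩, rfl⟩
        · rw [Nat.le_div_iff_mul_le hp.pos, mul_comm]
          exact h2
        · rw [Nat.primeFactors_mul hp.ne_zero hm.ne'] at h4
          intro r hr
          rcases Finset.mem_insert.1 (h4 (Finset.mem_union_right _ hr)) with h | h
          · subst h
            exact absurd (Nat.dvd_of_mem_primeFactors hr) ((hp.coprime_iff_not_dvd).1 hcop)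
          · exact h
      · rintro ⟨m, ⟨⟨h1, h2⟩, h5, h4⟩, rfl⟩
        have hpm : ¬ p ∣ m := fun h => hpP (h4 (Nat.mem_primeFactors.2 ⟨hp, h, by omega⟩))
        refine ⟨⟨⟨Nat.mul_pos hp.pos h1, ?_⟩, ?_, ?_⟩, dvd_mul_right _ _⟩
        · rw [Nat.le_div_iff_mul_le hp.pos, mul_comm] at h2
          exact h2
        · rw [Nat.squarefree_mul ((hp.coprime_iff_not_dvd).2 hpm)]
          exact ⟨hp.squarefree, h5⟩
        · rw [Nat.primeFactors_mul hp.ne_zero (by omega), hp.primeFactors]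
          exact Finset.union_subset (by simp) (h4.trans (Finset.subset_insert _ _))
    rw [h3, Finset.sum_image (by
      intro a _ b _ hab
      exact Nat.eq_of_mul_eq_mul_left hp.pos hab)]
    apply Finset.sum_congr rfl
    intro m hm
    simp only [Finset.mem_filter, Finset.mem_Icc] at hm
    have hpm : ¬ p ∣ m := fun h => hpP (hm.2.2 (Nat.mem_primeFactors.2 ⟨hp, h, by omega⟩))
    rw [Nat.primeFactors_mul hp.ne_zero (by omega), hp.primeFactors, ← Finset.insert_eq,
      Finset.prod_insert]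
    intro hc
    exact hpm (Nat.dvd_of_mem_primeFactors hc)

theorem SS_le_GG {q : ℕ} {χ : DirichletCharacter ℂ q} (hq : 0 < q) (h : RealPrim q χ)
    (P : Finset ℕ) (hP : ∀ p ∈ P, p.Prime) : ∀ x, SS χ P x ≤ GG χ P x := by
  classical
  induction P using Finset.induction_on with
  | empty =>
    intro x
    unfold SS GG
    apply le_of_eq
    have h1 : (Finset.Icc 1 x).filter (fun n => n.primeFactors ⊆ ∅) =
        (Finset.Icc 1 x).filter (fun n => Squarefree n ∧ n.primeFactors ⊆ ∅) := by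
      ext n
      simp only [Finset.mem_filter, Finset.mem_Icc, Finset.subset_empty, Nat.primeFactors_eq_empty]
      constructor
      · rintro ⟨h1, h2⟩
        refine ⟨h1, ?_, h2⟩
        rcases h2 with h | h
        · omega
        · rw [h]; exact squarefree_one
      · rintro ⟨h1, _, h2⟩
        exact ⟨h1, h2⟩
    rw [← h1]
    apply Finset.sum_congr rfl
    intro n hn
    simp only [Finset.mem_filter, Finset.mem_Icc, Finset.subset_empty,
      Nat.primeFactors_eq_empty] at hn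
    have : n = 1 := by omega
    subst this
    simp [tau, cv]
  | @insert p P hpP ih =>
    have hp : p.Prime := hP p (Finset.mem_insert_self _ _)
    have ih' := ih fun r hr => hP r (Finset.mem_insert_of_mem hr)
    intro x
    rw [GG_insert χ hp hpP]
    refine (SS_insert hq h hp hpP x).trans ?_
    have h1 := mul_le_mul_of_nonneg_left (ih' (x / p)) (hh_nonneg hq h hp)
    linarith [ih' x]

theorem t_HSUM : Pool.Agent.E8helper23.SG.S_HSUM := by
  classical
  intro q χ hq h R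
  set P : Finset ℕ := (Icc 1 R).filter Nat.Prime with hP
  have e1 : Pool.Agent.E8helper23.SG.T χ R = SS χ P R := by
    unfold Pool.Agent.E8helper23.SG.T SS
    apply Finset.sum_congr _ fun _ _ => rfl
    ext n
    simp only [Finset.mem_filter, Finset.mem_Icc]
    constructor
    · intro h1
      refine ⟨h1, fun p hp => ?_⟩
      rw [Nat.mem_primeFactors] at hp
      rw [hP, Finset.mem_filter, Finset.mem_Icc]
      exact ⟨⟨hp.1.one_lt.le, (Nat.le_of_dvd (by omega) hp.2.1).trans h1.2⟩, hp.1⟩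
    · rintro ⟨h1, _⟩
      exact h1
  rw [e1]
  refine (SS_le_GG hq h P (fun p hp => (Finset.mem_filter.1 hp).2) R).trans ?_
  unfold GG
  change _ ≤ ∑ l ∈ (Icc 1 R).filter Squarefree, ∏ p ∈ l.primeFactors, hh χ p
  apply Finset.sum_le_sum_of_subset_of_nonneg
  · intro l hl
    rw [Finset.mem_filter] at hl ⊢
    exact ⟨hl.1, hl.2.1⟩
  · intro l _ _
    exact Finset.prod_nonneg fun p hp => hh_nonneg hq h (Nat.prime_of_mem_primeFactors hp)

end Pool.Agent.E8helper42.SG
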